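import Mathlib

set_option autoImplicit false

namespace Pool.Agent.MP_dd5568_co

/-- The upper bound beats every `γ ^ n * n!`. -/
theorem beats (γ : ℝ) (hγ : 0 < γ) : ∃ n : ℕ,
    (Real.sqrt (n + 1)) ^ (n + 1) * (2 * Real.log (n + 1) + 2) ^ n <
      γ ^ n * n.factorial * (n + 1) := by
  obtain ⟨k, hk⟩ := exists_nat_gt (48 / γ + 2)
  have hk2 : (2 : ℝ) < k := by
    have : 0 < 48 / γ := by positivity
    linarith
  have hk48 : 48 < γ * k := by
    have h1 : 48 / γ < k := by linarith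
    rw [div_lt_iff₀ hγ] at h1
    linarith
  have hkpos : (0 : ℝ) < k := by linarith
  have hkN : 0 < k := by exact_mod_cast hkpos
  have hN : 0 < k ^ 4 := by positivity
  obtain ⟨n, hn⟩ : ∃ n, k ^ 4 = n + 1 := ⟨k ^ 4 - 1, by omega⟩
  refine ⟨n, ?_⟩
  have hcast : (n : ℝ) + 1 = (k : ℝ) ^ 4 := by
    have : ((k ^ 4 : ℕ) : ℝ) = ((n + 1 : ℕ) : ℝ) := by rw [hn]
    push_cast at this
    exact this.symm
  have hsqrt : Real.sqrt (n + 1) = (k : ℝ) ^ 2 := by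
    rw [hcast]
    have : (k : ℝ) ^ 4 = ((k : ℝ) ^ 2) ^ 2 := by ring
    rw [this, Real.sqrt_sq (by positivity)]
  have hlog : 2 * Real.log (n + 1) + 2 ≤ 8 * k := by
    rw [hcast, Real.log_pow]
    have := Real.log_le_sub_one_of_pos hkpos
    push_cast
    linarith
  have hlog0 : 0 ≤ 2 * Real.log (n + 1) + 2 := by
    have : 0 ≤ Real.log ((n : ℝ) + 1) := Real.log_nonneg (by
      have : (0 : ℝ) ≤ n := Nat.cast_nonneg n
      linarith)
    positivity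
  -- the factorial
  have hfac : ((k : ℝ) ^ 4 / 3) ^ (n + 1) ≤ n.factorial * (n + 1) := by
    have h1 := Real.pow_div_factorial_le_exp (x := (n : ℝ) + 1) (by positivity) (n + 1)
    have hf : (0 : ℝ) < (n + 1).factorial := by exact_mod_cast (n + 1).factorial_pos
    rw [div_le_iff₀ hf] at h1
    have h2 : Real.exp ((n : ℝ) + 1) ≤ 3 ^ (n + 1) := by
      have h3 : Real.exp ((n : ℝ) + 1) = (Real.exp 1) ^ (n + 1) := by
        rw [← Real.exp_nat_mul]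
        push_cast
        ring_nf
      rw [h3]
      have := Real.exp_one_lt_d9
      apply pow_le_pow_left₀ (Real.exp_pos 1).le
      linarith
    have h4 : ((n : ℝ) + 1) ^ (n + 1) ≤ 3 ^ (n + 1) * (n + 1).factorial :=
      h1.trans (by gcongr)
    rw [div_pow, div_le_iff₀ (by positivity), ← hcast]
    rw [Nat.factorial_succ] at h4
    push_cast at h4
    linarith
  have hmain : ((k : ℝ) ^ 2) ^ (n + 1) * (8 * k) ^ n < γ ^ n * ((k : ℝ) ^ 4 / 3) ^ (n + 1) := by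
    have e1 : γ ^ n * ((k : ℝ) ^ 4 / 3) ^ (n + 1) =
        ((k : ℝ) ^ 4 / 3) * ((k : ℝ) ^ 3 * 8) ^ n * (γ * k / 24) ^ n := by
      rw [pow_succ, ← mul_assoc, ← mul_pow, mul_assoc ((k : ℝ) ^ 4 / 3), ← mul_pow, mul_comm]
      congr 2
      ring
    have e2 : ((k : ℝ) ^ 2) ^ (n + 1) * (8 * k) ^ n = (k : ℝ) ^ 2 * ((k : ℝ) ^ 3 * 8) ^ n := by
      rw [pow_succ, mul_assoc, mul_comm ((k : ℝ) ^ 2) ((8 * k) ^ n), ← mul_assoc, ← mul_pow,
        mul_comm]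
      congr 2
      ring
    rw [e1, e2]
    have h1 : (1 : ℝ) ≤ (γ * k / 24) ^ n := by
      apply one_le_pow₀
      linarith
    have h2 : (k : ℝ) ^ 2 < (k : ℝ) ^ 4 / 3 := by
      have h3 : (3 : ℝ) < (k : ℝ) ^ 2 := by nlinarith
      have h4 : (0 : ℝ) < (k : ℝ) ^ 2 := by positivity
      nlinarith
    have h5 : (0 : ℝ) < ((k : ℝ) ^ 3 * 8) ^ n := by positivity
    calc (k : ℝ) ^ 2 * ((k : ℝ) ^ 3 * 8) ^ n < (k : ℝ) ^ 4 / 3 * ((k : ℝ) ^ 3 * 8) ^ n := by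
          gcongr
      _ = (k : ℝ) ^ 4 / 3 * ((k : ℝ) ^ 3 * 8) ^ n * 1 := by ring
      _ ≤ _ := by gcongr
  calc (Real.sqrt (n + 1)) ^ (n + 1) * (2 * Real.log (n + 1) + 2) ^ n
      ≤ ((k : ℝ) ^ 2) ^ (n + 1) * (8 * k) ^ n := by
        rw [hsqrt]
        gcongr
    _ < γ ^ n * ((k : ℝ) ^ 4 / 3) ^ (n + 1) := hmain
    _ ≤ γ ^ n * (n.factorial * (n + 1)) := by gcongr
    _ = _ := by ring

end Pool.Agent.MP_dd5568_co
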