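import Pool.Agent.MP_dd5568_co.Triangulation

set_option autoImplicit false

open Matrix MeasureTheory

namespace Pool.Agent.MP_dd5568_co

variable {n : ℕ}

theorem IsCell.comp {ω : V n → ℝ} {s : Fin (n + 1) → V n} (hs : IsCell ω s)
    (σ : Equiv.Perm (Fin (n + 1))) : IsCell ω (s ∘ σ) := by
  obtain ⟨h1, h, h2, h3⟩ := hs
  refine ⟨?_, h, fun i => h2 (σ i), fun v hv => h3 v ?_⟩
  · have : M (s ∘ σ) = (M s).submatrix σ id := by
      ext i j; rfl
    rw [this, Matrix.det_permute]
    refine mul_ne_zero ?_ h1
    simp
  · intro hv'
    apply hv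
    rw [σ.surjective.range_comp]
    exact hv'

theorem vset_comp (s : Fin (n + 1) → V n) (σ : Equiv.Perm (Fin (n + 1))) :
    vset (s ∘ σ) = vset s := by
  apply Finset.coe_injective
  rw [coe_vset, coe_vset, ← Function.comp_assoc, σ.surjective.range_comp]

theorem card_T_le (ω : V n → ℝ) : (n + 1).factorial * (T ω).card ≤ (cells ω).card := by
  classical
  have key : (n + 1).factorial * ((cells ω).image vset).card ≤ (cells ω).card := by
    apply Finset.mul_card_image_le_card
    intro a ha
    obtain ⟨s, hs, rfl⟩ := Finset.mem_image.1 ha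
    have hinj : Function.Injective (fun σ : Equiv.Perm (Fin (n + 1)) => s ∘ σ) := by
      intro σ τ h
      ext i
      have := congrFun h i
      have := injective_of_det (mem_cells.1 hs).1 this
      rw [this]
    calc (n + 1).factorial = (Finset.univ.image (fun σ : Equiv.Perm (Fin (n + 1)) => s ∘ σ)).card := by
          rw [Finset.card_image_of_injective _ hinj, Finset.card_univ, Fintype.card_perm,
            Fintype.card_fin]
      _ ≤ _ := by
          apply Finset.card_le_card
          intro t ht
          obtain ⟨σ, _, rfl⟩ := Finset.mem_image.1 ht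
          rw [Finset.mem_filter, mem_cells]
          exact ⟨(mem_cells.1 hs).comp σ, vset_comp s σ⟩
  have hT : T ω = (cells ω).image vset := by
    unfold T
    congr
  rw [hT]
  exact key

end Pool.Agent.MP_dd5568_co
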