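import Pool.Agent.MP_dd5568_co.Cells

set_option autoImplicit false

open Matrix MeasureTheory

namespace Pool.Agent.MP_dd5568_co

variable {n : ℕ}

theorem ae_ne (s : Fin (n + 1) → V n) (v : V n) (hv : v ∉ Set.range s) :
    ∀ᵐ ω : V n → ℝ, u v ⬝ᵥ ((M s)⁻¹ *ᵥ (ω ∘ s)) ≠ ω v := by
  classical
  let φ : (V n → ℝ) →ₗ[ℝ] ℝ :=
    { toFun := fun ω => u v ⬝ᵥ ((M s)⁻¹ *ᵥ (ω ∘ s)) - ω v
      map_add' := by
        intro a b
        have : (a + b) ∘ s = a ∘ s + b ∘ s := rfl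
        rw [this, Matrix.mulVec_add, dotProduct_add, Pi.add_apply]
        ring
      map_smul' := by
        intro c a
        have : (c • a) ∘ s = c • (a ∘ s) := rfl
        rw [this, Matrix.mulVec_smul, dotProduct_smul, Pi.smul_apply, RingHom.id_apply, smul_sub] }
  have hne : LinearMap.ker φ ≠ ⊤ := by
    intro htop
    have h1 : Pi.single v (1 : ℝ) ∈ LinearMap.ker φ := by rw [htop]; trivial
    rw [LinearMap.mem_ker] at h1
    have h2 : (Pi.single v (1 : ℝ)) ∘ s = (0 : Fin (n + 1) → ℝ) := by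
      funext i
      simp only [Function.comp, Pi.zero_apply]
      rw [Pi.single_eq_of_ne]
      intro h
      exact hv ⟨i, h⟩
    change u v ⬝ᵥ ((M s)⁻¹ *ᵥ ((Pi.single v (1 : ℝ)) ∘ s)) - (Pi.single v (1 : ℝ) : V n → ℝ) v = 0 at h1
    rw [h2, Matrix.mulVec_zero, dotProduct_zero, Pi.single_eq_same] at h1
    norm_num at h1
  have hnull := Measure.addHaar_submodule (volume : Measure (V n → ℝ)) _ hne
  rw [measure_eq_zero_iff_ae_notMem] at hnull
  filter_upwards [hnull] with ω hω h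
  apply hω
  rw [SetLike.mem_coe, LinearMap.mem_ker]
  change u v ⬝ᵥ ((M s)⁻¹ *ᵥ (ω ∘ s)) - ω v = 0
  rw [h, sub_self]

theorem ae_generic : ∀ᵐ ω : V n → ℝ, Generic ω := by
  have : ∀ᵐ ω : V n → ℝ, ∀ s : Fin (n + 1) → V n, ∀ v, v ∉ Set.range s →
      u v ⬝ᵥ ((M s)⁻¹ *ᵥ (ω ∘ s)) ≠ ω v := by
    rw [ae_all_iff]; intro s
    rw [ae_all_iff]; intro v
    by_cases hv : v ∈ Set.range s
    · filter_upwards with ω h using absurd hv h
    · filter_upwards [ae_ne s v hv] with ω h _ using h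
  filter_upwards [this] with ω h s _ v hv using h s v hv

end Pool.Agent.MP_dd5568_co
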