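import Pool.Agent.MP_dd5568_co.Cells

set_option autoImplicit false

open Matrix

namespace Pool.Agent.MP_dd5568_co

theorem hadamard {m : ℕ} (A : Matrix (Fin m) (Fin m) ℝ) (c : ℝ)
    (hA : ∀ i, ∑ j, A i j ^ 2 ≤ c) : |A.det| ≤ (Real.sqrt c) ^ m := by
  have hfin : Fact (Module.finrank ℝ (EuclideanSpace ℝ (Fin m)) = m) := ⟨by simp⟩
  let b : OrthonormalBasis (Fin m) ℝ (EuclideanSpace ℝ (Fin m)) := EuclideanSpace.basisFun (Fin m) ℝ
  let o : Orientation ℝ (EuclideanSpace ℝ (Fin m)) (Fin m) := b.toBasis.orientation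
  let v : Fin m → EuclideanSpace ℝ (Fin m) := fun i => WithLp.toLp 2 (A i)
  have h1 := o.abs_volumeForm_apply_le v
  rw [o.volumeForm_robust' b v] at h1
  have h2 : b.toBasis.det v = A.det := by
    rw [Module.Basis.det_apply, ← Matrix.det_transpose]
    rfl
  rw [h2] at h1
  refine h1.trans ?_
  calc ∏ i, ‖v i‖ ≤ ∏ i : Fin m, Real.sqrt c := by
        apply Finset.prod_le_prod
        · intro i _; exact norm_nonneg _
        · intro i _
          rw [EuclideanSpace.norm_eq]
          apply Real.sqrt_le_sqrt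
          refine le_trans (le_of_eq ?_) (hA i)
          apply Finset.sum_congr rfl
          intro j _
          simp [v]
    _ = _ := by simp

theorem abs_det_M_le {n : ℕ} (s : Fin (n + 1) → V n) :
    |(M s).det| ≤ (Real.sqrt (n + 1)) ^ (n + 1) := by
  apply hadamard
  intro i
  have : ∀ j : Fin (n + 1), M s i j ^ 2 ≤ 1 := by
    intro j
    refine Fin.cases ?_ (fun j => ?_) j
    · simp
    · simp only [M_apply, u_succ, pt]
      split_ifs <;> norm_num
  calc ∑ j, M s i j ^ 2 ≤ ∑ j : Fin (n + 1), (1 : ℝ) := Finset.sum_le_sum fun j _ => this j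
    _ = n + 1 := by simp

end Pool.Agent.MP_dd5568_co
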