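import Pool.Agent.MP_dd5568_co.SumBound
import Pool.Agent.MP_dd5568_co.Hadamard
import Pool.Agent.MP_dd5568_co.GenericAE
import Pool.Agent.MP_dd5568_co.Count

set_option autoImplicit false

open MeasureTheory Matrix
open scoped ENNReal

namespace Pool.Agent.MP_dd5568_co

variable {n : ℕ}

theorem measurableSet_Ev (s : Fin (n + 1) → V n) : MeasurableSet (Ev s) := by
  have h : Ev s = ⋂ v, ⋂ (_ : v ∉ Set.range s),
      {ω : V n → ℝ | u v ⬝ᵥ ((M s)⁻¹ *ᵥ (ω ∘ s)) < ω v} := by
    ext ω
    simp [Ev]
  rw [h]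
  apply MeasurableSet.iInter
  intro v
  apply MeasurableSet.iInter
  intro _
  apply measurableSet_lt
  · exact (measurable_dot s v).comp (measurable_pi_lambda _ fun i => measurable_pi_apply (s i))
  · exact measurable_pi_apply v

/-- The random regular triangulation has few simplices on average, hence some generic heights
give few simplices. -/
theorem exists_generic (n : ℕ) : ∃ ω : V n → ℝ, Generic ω ∧
    ((cells ω).card : ℝ) ≤
      (Real.sqrt (n + 1)) ^ (n + 1) * (n.factorial * (2 * Real.log (n + 1) + 2) ^ n) := by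
  classical
  set D : Finset (Fin (n + 1) → V n) := Finset.univ.filter (fun s => (M s).det ≠ 0) with hD
  set dens : (V n → ℝ) → ℝ≥0∞ := fun ω => ∏ v, g (ω v) with hdens
  have hdm : Measurable dens :=
    Finset.measurable_prod _ fun v _ => measurable_g.comp (measurable_pi_apply v)
  set μ : Measure (V n → ℝ) := volume.withDensity dens with hμ
  have hprob : IsProbabilityMeasure μ := by
    constructor
    rw [hμ, withDensity_apply _ MeasurableSet.univ, Measure.restrict_univ, hdens]
    rw [lintegral_pi_prod (fun _ : V n => g) (fun _ => measurable_g)]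
    simp [lintegral_g]
  set F : (V n → ℝ) → ℝ≥0∞ := fun ω => ∑ s ∈ D, (Ev s).indicator 1 ω with hF
  have hFm : ∀ s, Measurable ((Ev s).indicator (1 : (V n → ℝ) → ℝ≥0∞)) := fun s =>
    measurable_one.indicator (measurableSet_Ev s)
  have hFcard : ∀ ω, F ω = ((cells ω).card : ℝ≥0∞) := by
    intro ω
    have h1 : cells ω = D.filter (fun s => ω ∈ Ev s) := by
      ext s
      rw [mem_cells, isCell_iff]
      simp [hD, Ev]
    rw [h1, Finset.card_filter]
    push_cast
    rw [hF]
    apply Finset.sum_congr rfl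
    intro s _
    simp [Set.indicator_apply]
  set B : ℝ := (Real.sqrt (n + 1)) ^ (n + 1) * (n.factorial * (2 * Real.log (n + 1) + 2) ^ n) with hB
  have hlog : 0 ≤ 2 * Real.log (n + 1) + 2 := by
    have : 0 ≤ Real.log ((n : ℝ) + 1) := Real.log_nonneg (by
      have : (0 : ℝ) ≤ n := Nat.cast_nonneg n
      linarith)
    positivity
  have hint : ∫⁻ ω, F ω ∂μ ≤ ENNReal.ofReal B := by
    rw [hF, lintegral_finsetSum _ (fun s _ => hFm s)]
    calc ∑ s ∈ D, ∫⁻ ω, (Ev s).indicator 1 ω ∂μ
        = ∑ s ∈ D, ENNReal.ofReal |(M s).det| * J s := by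
          apply Finset.sum_congr rfl
          intro s hs
          have hdet : (M s).det ≠ 0 := by simpa [hD] using hs
          rw [hμ, lintegral_withDensity_eq_lintegral_mul _ hdm (hFm s)]
          exact lintegral_cell s hdet
      _ ≤ ∑ s ∈ D, ENNReal.ofReal ((Real.sqrt (n + 1)) ^ (n + 1)) * J s := by
          apply Finset.sum_le_sum
          intro s _
          gcongr
          exact abs_det_M_le s
      _ ≤ ∑ s ∈ NCT n, ENNReal.ofReal ((Real.sqrt (n + 1)) ^ (n + 1)) * J s := by
          apply Finset.sum_le_sum_of_subset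
          intro s hs
          exact mem_NCT_of_det (by simpa [hD] using hs)
      _ = ENNReal.ofReal ((Real.sqrt (n + 1)) ^ (n + 1)) * ∑ s ∈ NCT n, J s := by
          rw [Finset.mul_sum]
      _ ≤ ENNReal.ofReal ((Real.sqrt (n + 1)) ^ (n + 1)) *
          (ENNReal.ofReal (n.factorial) * (ENNReal.ofReal (2 * Real.log (n + 1) + 2)) ^ n) := by
          gcongr
          exact sum_J_le n
      _ = ENNReal.ofReal B := by
          rw [hB, ENNReal.ofReal_mul (by positivity), ENNReal.ofReal_mul (by positivity),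
            ENNReal.ofReal_pow hlog]
  have hnull : μ {ω | ¬ Generic ω} = 0 := by
    apply withDensity_absolutelyContinuous volume dens
    exact ae_generic
  have hFm' : Measurable F := Finset.measurable_sum _ fun s _ => hFm s
  obtain ⟨ω, hω1, hω2⟩ := exists_notMem_null_le_laverage (μ := μ) (f := F)
    (IsProbabilityMeasure.ne_zero μ) hFm'.aemeasurable hnull
  refine ⟨ω, by simpa using hω1, ?_⟩
  have h3 : ((cells ω).card : ℝ≥0∞) ≤ ENNReal.ofReal B := by
    rw [← hFcard]
    rw [laverage_eq_lintegral] at hω2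
    exact le_trans hω2 hint
  have h4 : ((cells ω).card : ℝ≥0∞) = ENNReal.ofReal ((cells ω).card : ℝ) := by
    rw [ENNReal.ofReal_natCast]
  rw [h4] at h3
  exact (ENNReal.ofReal_le_ofReal_iff (by positivity)).1 h3

theorem exists_triangulation (n : ℕ) : ∃ ω : V n → ℝ, Generic ω ∧
    ((T ω).card : ℝ) * (n + 1) ≤
      (Real.sqrt (n + 1)) ^ (n + 1) * (2 * Real.log (n + 1) + 2) ^ n := by
  obtain ⟨ω, h1, h2⟩ := exists_generic n
  refine ⟨ω, h1, ?_⟩
  have h3 : (((n + 1).factorial * (T ω).card : ℕ) : ℝ) ≤ (cells ω).card := by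
    exact_mod_cast card_T_le ω
  rw [Nat.factorial_succ] at h3
  push_cast at h3
  have h4 := h3.trans h2
  have hf : (0 : ℝ) < n.factorial := by exact_mod_cast n.factorial_pos
  have h5 : (n.factorial : ℝ) * (((T ω).card : ℝ) * (n + 1)) ≤
      n.factorial * ((Real.sqrt (n + 1)) ^ (n + 1) * (2 * Real.log (n + 1) + 2) ^ n) := by
    calc (n.factorial : ℝ) * (((T ω).card : ℝ) * (n + 1))
        = (n + 1) * n.factorial * (T ω).card := by ring
      _ ≤ _ := h4
      _ = _ := by ring
  exact le_of_mul_le_mul_left h5 hf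

end Pool.Agent.MP_dd5568_co
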