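import Pool.Agent.MP_dd5568_co.Split

set_option autoImplicit false

open MeasureTheory Matrix
open scoped ENNReal

namespace Pool.Agent.MP_dd5568_co

variable {n : ℕ}

/-- the event that `s` is a cell -/
def Ev (s : Fin (n + 1) → V n) : Set (V n → ℝ) :=
  {ω | ∀ v, v ∉ Set.range s → u v ⬝ᵥ ((M s)⁻¹ *ᵥ (ω ∘ s)) < ω v}

theorem lintegral_g_Ioi (a : ℝ) :
    ∫⁻ t, (Set.Ioi a).indicator g t = ENNReal.ofReal (Real.exp (-Real.exp a)) := by
  rw [lintegral_indicator measurableSet_Ioi, setLIntegral_congr Ioi_ae_eq_Ici, lintegral_g_Ici]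

theorem measurable_dot (s : Fin (n + 1) → V n) (v : V n) :
    Measurable (fun x : Fin (n + 1) → ℝ => u v ⬝ᵥ ((M s)⁻¹ *ᵥ x)) := by
  apply Continuous.measurable
  exact Continuous.dotProduct continuous_const (Continuous.matrix_mulVec continuous_const continuous_id)

theorem lintegral_cell (s : Fin (n + 1) → V n) (hs : (M s).det ≠ 0) :
    ∫⁻ ω : V n → ℝ, (∏ v, g (ω v)) * (Ev s).indicator 1 ω =
      ENNReal.ofReal |(M s).det| * ∫⁻ h : Fin (n + 1) → ℝ,
        ENNReal.ofReal (Real.exp (∑ i, u (s i) ⬝ᵥ h) * Real.exp (-∑ v : V n, Real.exp (u v ⬝ᵥ h))) := by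
  classical
  have hinj := injective_of_det hs
  obtain ⟨Φ, hΦm, hΦ1, hΦ2, hΦ⟩ := split_lintegral s hinj
  rw [hΦ]
  -- the integrand in the split form
  have h1 : ∀ p : (Fin (n + 1) → ℝ) × (Rest s → ℝ),
      (∏ v, g (Φ p v)) * (Ev s).indicator 1 (Φ p) =
        (∏ i, g (p.1 i)) * ∏ r : Rest s,
          (Set.Ioi (u (r : V n) ⬝ᵥ ((M s)⁻¹ *ᵥ p.1))).indicator g (p.2 r) := by
    intro p
    have hcomp : Φ p ∘ s = p.1 := by funext i; exact hΦ1 p i
    rw [prod_split s hinj]
    simp only [hΦ1, hΦ2]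
    rw [mul_assoc]
    congr 1
    by_cases hE : Φ p ∈ Ev s
    · rw [Set.indicator_of_mem hE, Pi.one_apply, mul_one]
      apply Finset.prod_congr rfl
      intro r _
      have := hE r.1 r.2
      rw [hcomp, hΦ2 p r] at this
      rw [Set.indicator_of_mem]
      exact this
    · rw [Set.indicator_of_notMem hE, mul_zero]
      symm
      simp only [Ev, Set.mem_ofPred_eq, not_forall] at hE
      obtain ⟨v, hv, hE⟩ := hE
      apply Finset.prod_eq_zero (Finset.mem_univ (⟨v, hv⟩ : Rest s))
      rw [Set.indicator_of_notMem]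
      intro hmem
      apply hE
      rw [hcomp]
      have h3 := hΦ2 p ⟨v, hv⟩
      dsimp only at h3
      rw [h3]
      exact hmem
  simp_rw [h1]
  -- measurability
  have hmeas : Measurable (fun p : (Fin (n + 1) → ℝ) × (Rest s → ℝ) =>
      (∏ i, g (p.1 i)) * ∏ r : Rest s,
          (Set.Ioi (u (r : V n) ⬝ᵥ ((M s)⁻¹ *ᵥ p.1))).indicator g (p.2 r)) := by
    apply Measurable.mul
    · apply Finset.measurable_prod
      intro i _
      exact measurable_g.comp ((measurable_pi_apply i).comp measurable_fst)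
    · apply Finset.measurable_prod
      intro r _
      have h4 : (fun p : (Fin (n + 1) → ℝ) × (Rest s → ℝ) =>
          (Set.Ioi (u (r : V n) ⬝ᵥ ((M s)⁻¹ *ᵥ p.1))).indicator g (p.2 r)) =
          Set.indicator {p : (Fin (n + 1) → ℝ) × (Rest s → ℝ) |
            u (r : V n) ⬝ᵥ ((M s)⁻¹ *ᵥ p.1) < p.2 r} (fun p => g (p.2 r)) := by
        funext p
        simp only [Set.indicator, Set.mem_Ioi, Set.mem_ofPred_eq]
      rw [h4]
      apply Measurable.indicator
      · exact measurable_g.comp ((measurable_pi_apply r).comp measurable_snd)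
      · exact measurableSet_lt ((measurable_dot s r).comp measurable_fst)
          ((measurable_pi_apply r).comp measurable_snd)
  rw [Measure.volume_eq_prod, lintegral_prod _ hmeas.aemeasurable]
  dsimp only
  have h5 : ∀ x : Fin (n + 1) → ℝ, ∫⁻ y : Rest s → ℝ, (∏ i, g (x i)) * ∏ r : Rest s,
      (Set.Ioi (u (r : V n) ⬝ᵥ ((M s)⁻¹ *ᵥ x))).indicator g (y r) =
      (∏ i, g (x i)) * ∏ r : Rest s, ENNReal.ofReal (Real.exp (-Real.exp (u (r : V n) ⬝ᵥ ((M s)⁻¹ *ᵥ x)))) := by
    intro x
    rw [lintegral_const_mul]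
    · congr 1
      rw [lintegral_pi_prod (fun r : Rest s => (Set.Ioi (u (r : V n) ⬝ᵥ ((M s)⁻¹ *ᵥ x))).indicator g)
        (fun r => measurable_g.indicator measurableSet_Ioi)]
      apply Finset.prod_congr rfl
      intro r _
      exact lintegral_g_Ioi _
    · apply Finset.measurable_prod
      intro r _
      exact (measurable_g.indicator measurableSet_Ioi).comp (measurable_pi_apply r)
  simp_rw [h5]
  rw [change_var s hs]
  · congr 1
    apply lintegral_congr
    intro h
    rw [inv_mulVec hs]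
    simp only [M_mulVec, g]
    rw [← ENNReal.ofReal_prod_of_nonneg (fun i _ => by positivity),
      ← ENNReal.ofReal_prod_of_nonneg (fun i _ => by positivity),
      ← ENNReal.ofReal_mul (Finset.prod_nonneg fun i _ => by positivity)]
    congr 1
    rw [Finset.prod_mul_distrib, ← Real.exp_sum, ← Real.exp_sum, ← Real.exp_sum, mul_assoc,
      ← Real.exp_add, sum_split s hinj (fun v => Real.exp (u v ⬝ᵥ h))]
    congr 2
    rw [Finset.sum_neg_distrib, Finset.sum_neg_distrib]
    ring
  · apply Measurable.mul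
    · apply Finset.measurable_prod
      intro i _
      exact measurable_g.comp (measurable_pi_apply i)
    · apply Finset.measurable_prod
      intro r _
      exact ENNReal.measurable_ofReal.comp (Real.measurable_exp.comp
        ((Real.measurable_exp.comp (measurable_dot s r)).neg))

end Pool.Agent.MP_dd5568_co
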