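import Mathlib

/-!
Regular triangulations of the cube, linear algebra part.
-/

set_option autoImplicit false

open Matrix

namespace Pool.Agent.MP_dd5568_co

/-- labels of the vertices of the `n`-cube -/
abbrev V (n : ℕ) := Fin n → Bool

/-- the vertex of the cube with a given label -/
def pt {n : ℕ} (v : V n) : Fin n → ℝ := fun i => if v i then 1 else 0

/-- the lift of a point to height one -/
def lift {n : ℕ} (x : Fin n → ℝ) : Fin (n + 1) → ℝ := Fin.cons 1 x

/-- lifted vertex -/
def u {n : ℕ} (v : V n) : Fin (n + 1) → ℝ := lift (pt v)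

/-- matrix of a tuple of vertices -/
def M {n : ℕ} (s : Fin (n + 1) → V n) : Matrix (Fin (n + 1)) (Fin (n + 1)) ℝ :=
  Matrix.of fun i => u (s i)

/-- `s` is an (ordered) cell of the regular triangulation with heights `ω` -/
def IsCell {n : ℕ} (ω : V n → ℝ) (s : Fin (n + 1) → V n) : Prop :=
  (M s).det ≠ 0 ∧ ∃ h : Fin (n + 1) → ℝ,
    (∀ i, u (s i) ⬝ᵥ h = ω (s i)) ∧ ∀ v, v ∉ Set.range s → u v ⬝ᵥ h < ω v

/-- generic heights -/
def Generic {n : ℕ} (ω : V n → ℝ) : Prop :=
  ∀ s : Fin (n + 1) → V n, (M s).det ≠ 0 → ∀ v, v ∉ Set.range s →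
    u v ⬝ᵥ ((M s)⁻¹ *ᵥ (ω ∘ s)) ≠ ω v

variable {n : ℕ}

@[simp] theorem lift_zero (x : Fin n → ℝ) : lift x 0 = 1 := rfl
@[simp] theorem lift_succ (x : Fin n → ℝ) (j : Fin n) : lift x j.succ = x j := rfl
@[simp] theorem u_zero (v : V n) : u v 0 = 1 := rfl
@[simp] theorem u_succ (v : V n) (j : Fin n) : u v j.succ = pt v j := rfl
@[simp] theorem M_apply (s : Fin (n + 1) → V n) (i j) : M s i j = u (s i) j := rfl

theorem pt_injective : Function.Injective (pt : V n → Fin n → ℝ) := by
  intro v w h
  funext i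
  have := congrFun h i
  simp only [pt] at this
  cases hv : v i <;> cases hw : w i <;> simp_all

theorem vecMul_M_eq_lift {s : Fin (n + 1) → V n} {w : Fin (n + 1) → ℝ} {x : Fin n → ℝ} :
    w ᵥ* M s = lift x ↔ (∑ i, w i = 1 ∧ ∑ i, w i • pt (s i) = x) := by
  constructor
  · intro h
    refine ⟨?_, ?_⟩
    · have := congrFun h 0
      simpa [Matrix.vecMul, dotProduct] using this
    · funext j
      have := congrFun h j.succ
      simpa [Matrix.vecMul, dotProduct] using this
  · rintro ⟨h1, h2⟩
    funext j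
    refine Fin.cases ?_ (fun j => ?_) j
    · simpa [Matrix.vecMul, dotProduct] using h1
    · have := congrFun h2 j
      simpa [Matrix.vecMul, dotProduct] using this

theorem vecMul_M_eq_zero {s : Fin (n + 1) → V n} {w : Fin (n + 1) → ℝ} :
    w ᵥ* M s = 0 ↔ (∑ i, w i = 0 ∧ ∑ i, w i • pt (s i) = 0) := by
  constructor
  · intro h
    refine ⟨?_, ?_⟩
    · have := congrFun h 0
      simpa [Matrix.vecMul, dotProduct] using this
    · funext j
      have := congrFun h j.succ
      simpa [Matrix.vecMul, dotProduct] using this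
  · rintro ⟨h1, h2⟩
    funext j
    refine Fin.cases ?_ (fun j => ?_) j
    · simpa [Matrix.vecMul, dotProduct] using h1
    · have := congrFun h2 j
      simpa [Matrix.vecMul, dotProduct] using this

theorem affineIndependent_iff_det {s : Fin (n + 1) → V n} :
    AffineIndependent ℝ (pt ∘ s) ↔ (M s).det ≠ 0 := by
  rw [affineIndependent_iff, ne_eq, ← Matrix.exists_vecMul_eq_zero_iff]
  constructor
  · rintro h ⟨w, hw, hw0⟩
    rw [vecMul_M_eq_zero] at hw0
    apply hw
    funext i
    exact h Finset.univ w hw0.1 hw0.2 i (Finset.mem_univ _)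
  · intro h S w h1 h2 e he
    by_contra hne
    apply h
    classical
    refine ⟨fun i => if i ∈ S then w i else 0, ?_, ?_⟩
    · intro h0
      have := congrFun h0 e
      simp [he] at this
      exact hne this
    · rw [vecMul_M_eq_zero]
      constructor
      · simpa [Finset.sum_ite_mem] using h1
      · simpa [ite_smul, Finset.sum_ite_mem] using h2

theorem injective_of_det {s : Fin (n + 1) → V n} (hs : (M s).det ≠ 0) :
    Function.Injective s := by
  have := (affineIndependent_iff_det.2 hs).injective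
  exact this.of_comp

/-- `h` interpolates. -/
theorem M_mulVec (s : Fin (n + 1) → V n) (h : Fin (n + 1) → ℝ) (i : Fin (n + 1)) :
    (M s *ᵥ h) i = u (s i) ⬝ᵥ h := rfl

theorem mulVec_inv {s : Fin (n + 1) → V n} (hs : (M s).det ≠ 0) (f : Fin (n + 1) → ℝ) :
    M s *ᵥ ((M s)⁻¹ *ᵥ f) = f := by
  rw [Matrix.mulVec_mulVec, Matrix.mul_nonsing_inv _ (Ne.isUnit hs), Matrix.one_mulVec]

theorem inv_mulVec {s : Fin (n + 1) → V n} (hs : (M s).det ≠ 0) (f : Fin (n + 1) → ℝ) :
    (M s)⁻¹ *ᵥ (M s *ᵥ f) = f := by
  rw [Matrix.mulVec_mulVec, Matrix.nonsing_inv_mul _ (Ne.isUnit hs), Matrix.one_mulVec]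

theorem vecMul_inv {s : Fin (n + 1) → V n} (hs : (M s).det ≠ 0) (f : Fin (n + 1) → ℝ) :
    (f ᵥ* (M s)⁻¹) ᵥ* M s = f := by
  rw [Matrix.vecMul_vecMul, Matrix.nonsing_inv_mul _ (Ne.isUnit hs), Matrix.vecMul_one]

theorem interp_eq {s : Fin (n + 1) → V n} (hs : (M s).det ≠ 0) {w y f : Fin (n + 1) → ℝ}
    (hw : w ᵥ* M s = y) : y ⬝ᵥ ((M s)⁻¹ *ᵥ f) = w ⬝ᵥ f := by
  rw [← hw, ← Matrix.dotProduct_mulVec, mulVec_inv hs]

theorem isCell_iff {ω : V n → ℝ} {s : Fin (n + 1) → V n} :
    IsCell ω s ↔ (M s).det ≠ 0 ∧ ∀ v, v ∉ Set.range s → u v ⬝ᵥ ((M s)⁻¹ *ᵥ (ω ∘ s)) < ω v := by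
  constructor
  · rintro ⟨h1, h, h2, h3⟩
    refine ⟨h1, fun v hv => ?_⟩
    have : (M s)⁻¹ *ᵥ (ω ∘ s) = h := by
      have : ω ∘ s = M s *ᵥ h := by
        funext i; exact (h2 i).symm
      rw [this, inv_mulVec h1]
    rw [this]; exact h3 v hv
  · rintro ⟨h1, h2⟩
    refine ⟨h1, _, fun i => ?_, h2⟩
    have := congrFun (mulVec_inv h1 (ω ∘ s)) i
    exact this

/-- the pivot step -/
theorem exists_cell {ω : V n → ℝ} (hω : Generic ω) {x : Fin n → ℝ}
    (hx : x ∈ convexHull ℝ (Set.range (pt : V n → Fin n → ℝ)))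
    (hgen : ∀ A : Finset (V n), A.card ≤ n → x ∉ convexHull ℝ (pt '' (A : Set (V n)))) :
    ∃ s, IsCell ω s ∧ x ∈ convexHull ℝ (Set.range (pt ∘ s)) := by
  classical
  let Good : (Fin (n + 1) → V n) → Prop := fun s =>
    (M s).det ≠ 0 ∧ ∃ w : Fin (n + 1) → ℝ, (∀ i, 0 ≤ w i) ∧ w ᵥ* M s = lift x
  have hne : ∃ s, Good s := by
    obtain ⟨ι, _, z, w, hz, hind, hw, hw1, hwx⟩ := eq_pos_convex_span_of_mem_convexHull hx
    choose p hp using fun i => hz (Set.mem_range_self i)
    have hcard : Fintype.card ι ≤ n + 1 := by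
      have := hind.card_le_finrank_succ
      refine this.trans ?_
      gcongr
      refine (Submodule.finrank_le _).trans ?_
      simp
    have hcard' : Fintype.card ι = n + 1 := by
      by_contra hne
      have hle : Fintype.card ι ≤ n := by omega
      refine hgen (Finset.univ.image p) (Finset.card_image_le.trans (by simpa using hle)) ?_
      rw [← hwx]
      apply (convex_convexHull ℝ _).sum_mem
      · intro i _; exact (hw i).le
      · exact hw1
      · intro i _
        apply subset_convexHull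
        exact ⟨p i, by simp, hp i⟩
    let e : Fin (n + 1) ≃ ι := (Fintype.equivFinOfCardEq hcard').symm
    refine ⟨p ∘ e, ?_, w ∘ e, fun i => (hw _).le, ?_⟩
    · rw [← affineIndependent_iff_det]
      have : pt ∘ (p ∘ e) = z ∘ e := by
        funext i; exact hp _
      rw [this]
      exact (affineIndependent_equiv e).2 hind
    · rw [vecMul_M_eq_lift]
      constructor
      · rw [← hw1]; exact e.sum_comp w
      · rw [← hwx]
        simp only [Function.comp, hp]
        exact e.sum_comp (fun i => w i • z i)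
  let val : (Fin (n + 1) → V n) → ℝ := fun s => lift x ⬝ᵥ ((M s)⁻¹ *ᵥ (ω ∘ s))
  obtain ⟨s, hs, hmin⟩ := Finset.exists_min_image (Finset.univ.filter Good) val
    (by obtain ⟨s, hs⟩ := hne; exact ⟨s, by simpa using hs⟩)
  have hsG : Good s := by simpa using hs
  obtain ⟨hdet, w, hw0, hwx⟩ := hsG
  have hwx' := vecMul_M_eq_lift.1 hwx
  -- weights are positive
  have hwpos : ∀ i, 0 < w i := by
    intro i
    rcases (hw0 i).lt_or_eq with h | h
    · exact h
    exfalso
    refine hgen ((Finset.univ.erase i).image s) (Finset.card_image_le.trans (by simp)) ?_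
    rw [← hwx'.2, ← Finset.sum_erase (f := fun i => w i • pt (s i)) (a := i) Finset.univ
      (by simp only [← h, zero_smul])]
    apply (convex_convexHull ℝ _).sum_mem
    · intro j _; exact hw0 j
    · rw [Finset.sum_erase _ h.symm]; exact hwx'.1
    · intro j hj
      apply subset_convexHull
      exact ⟨s j, by simp only [Finset.coe_image]; exact ⟨j, by simpa using hj, rfl⟩, rfl⟩
  refine ⟨s, isCell_iff.2 ⟨hdet, fun v hv => ?_⟩, ?_⟩
  · refine lt_of_le_of_ne ?_ (hω s hdet v hv)
    by_contra hlt
    push Not at hlt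
    set c : Fin (n + 1) → ℝ := u v ᵥ* (M s)⁻¹ with hc
    have hcM : c ᵥ* M s = u v := vecMul_inv hdet _
    have hcM' := vecMul_M_eq_lift.1 hcM
    have hcpos : (Finset.univ.filter (fun i => 0 < c i)).Nonempty := by
      by_contra hemp
      rw [Finset.not_nonempty_iff_eq_empty, Finset.filter_eq_empty_iff] at hemp
      have : ∑ i, c i ≤ 0 := Finset.sum_nonpos (fun i hi => not_lt.1 (hemp hi))
      rw [hcM'.1] at this
      linarith
    obtain ⟨j, hj, hjmin⟩ := Finset.exists_min_image _ (fun i => w i / c i) hcpos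
    have hcj : 0 < c j := by simpa using hj
    set t : ℝ := w j / c j with ht
    have htpos : 0 < t := div_pos (hwpos j) hcj
    have htj : w j - t * c j = 0 := by rw [ht]; field_simp; ring
    have hti : ∀ i, 0 ≤ w i - t * c i := by
      intro i
      rcases le_or_gt (c i) 0 with h | h
      · nlinarith [hwpos i]
      · have := hjmin i (by simpa using h)
        have h2 : t * c i ≤ w i := by
          rw [← le_div_iff₀ h]; exact this
        linarith
    let s' := Function.update s j v
    have hMs' : M s' = (M s).updateRow j (u v) := by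
      ext i k
      rw [Matrix.updateRow_apply]
      simp only [M_apply, s', Function.update_apply]
      split_ifs <;> rfl
    have hdet' : (M s').det = c j * (M s).det := by
      rw [hMs']
      have : u v = ∑ k, c k • (M s) k := by
        rw [← hcM]
        funext k
        simp [Matrix.vecMul, dotProduct]
      rw [this, Matrix.det_updateRow_sum]
      rfl
    let w' : Fin (n + 1) → ℝ := fun i => (w i - t * c i) + if i = j then t else 0
    have key : ∀ f : V n → ℝ, ∑ i, w' i * f (s' i)
        = ∑ i, w i * f (s i) - t * ∑ i, c i * f (s i) + t * f v := by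
      intro f
      have h1 : ∀ i, w' i * f (s' i) = (w i * f (s i) - t * (c i * f (s i)))
          + if i = j then t * f v else 0 := by
        intro i
        simp only [w', s', Function.update_apply]
        split_ifs with hij
        · subst hij
          have : w i = t * c i := by linarith
          rw [this]; ring
        · ring
      rw [Finset.sum_congr rfl (fun i _ => h1 i), Finset.sum_add_distrib, Finset.sum_sub_distrib,
        Finset.mul_sum]
      simp
    have hw'x : w' ᵥ* M s' = lift x := by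
      funext k
      have h1 := key (fun v => u v k)
      have h2 := congrFun hwx k
      have h3 := congrFun hcM k
      simp only [Matrix.vecMul, dotProduct, M_apply] at h2 h3 ⊢
      rw [h1, h2, h3]; ring
    have hdet'' : (M s').det ≠ 0 := by
      rw [hdet']; exact mul_ne_zero hcj.ne' hdet
    have hGood' : Good s' := by
      refine ⟨hdet'', w', fun i => ?_, hw'x⟩
      simp only [w']
      have := hti i
      split_ifs <;> linarith
    have hval := hmin s' (by simpa using hGood')
    have hv1 : val s = w ⬝ᵥ (ω ∘ s) := interp_eq hdet hwx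
    have hv2 : val s' = w' ⬝ᵥ (ω ∘ s') := interp_eq hdet'' hw'x
    have hv3 : u v ⬝ᵥ ((M s)⁻¹ *ᵥ (ω ∘ s)) = c ⬝ᵥ (ω ∘ s) := interp_eq hdet hcM
    rw [hv1, hv2] at hval
    rw [hv3] at hlt
    have h4 := key ω
    simp only [dotProduct, Function.comp] at hval hlt
    rw [h4] at hval
    nlinarith
  · rw [← hwx'.2]
    apply (convex_convexHull ℝ _).sum_mem
    · intro i _; exact hw0 i
    · exact hwx'.1
    · intro i _
      exact subset_convexHull ℝ _ ⟨i, rfl⟩

end Pool.Agent.MP_dd5568_co
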