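import Pool.Agent.MP_dd5568_co.OneDim
import Pool.Agent.MP_dd5568_co.Cells

set_option autoImplicit false

open MeasureTheory Matrix
open scoped ENNReal

namespace Pool.Agent.MP_dd5568_co

variable {n : ℕ}

/-- nonconstant 0/1 columns -/
def NC (m : ℕ) : Finset (Fin m → Bool) :=
  Finset.univ.filter (fun c => (∃ i, c i = true) ∧ ∃ i, c i = false)

theorem sum_bool_prod {ι : Type*} [Fintype ι] [DecidableEq ι] (f : ι → Bool → ℝ) :
    ∑ c : ι → Bool, ∏ i, f i (c i) = ∏ i, (f i true + f i false) := by
  have h := Finset.prod_univ_sum (fun _ : ι => (Finset.univ : Finset Bool)) f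
  rw [Fintype.piFinset_univ] at h
  rw [← h]
  apply Finset.prod_congr rfl
  intro i _
  exact Fintype.sum_bool _

theorem sum_NC (m : ℕ) (a : ℝ) :
    ∑ c ∈ NC (m + 1), ∏ i, (if c i then Real.exp a else 1) = q m a := by
  have h1 := sum_bool_prod (fun (_ : Fin (m + 1)) b => if b then Real.exp a else 1)
  simp only [if_true, Bool.false_eq_true, if_false, Finset.prod_const, Finset.card_univ,
    Fintype.card_fin] at h1
  have h2 := Finset.sum_filter_add_sum_filter_not (Finset.univ : Finset (Fin (m + 1) → Bool))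
    (fun c => (∃ i, c i = true) ∧ ∃ i, c i = false)
    (fun c => ∏ i, (if c i then Real.exp a else 1))
  rw [h1] at h2
  have h3 : (Finset.univ : Finset (Fin (m + 1) → Bool)).filter
      (fun c => ¬ ((∃ i, c i = true) ∧ ∃ i, c i = false)) = {fun _ => true, fun _ => false} := by
    ext c
    simp only [Finset.mem_filter, Finset.mem_univ, true_and, Finset.mem_insert,
      Finset.mem_singleton, not_and_or, not_exists, Bool.not_eq_true, Bool.not_eq_false]
    constructor
    · rintro (h | h)
      · right; funext i; exact h i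
      · left; funext i; exact h i
    · rintro (h | h)
      · right; intro i; rw [h]
      · left; intro i; rw [h]
  have h4 : (fun _ : Fin (m + 1) => true) ≠ (fun _ => false) := by
    intro h
    have := congrFun h 0
    simp at this
  rw [h3, Finset.sum_pair h4] at h2
  simp only [if_true, Bool.false_eq_true, if_false, Finset.prod_const, Finset.card_univ,
    Fintype.card_fin, one_pow] at h2
  rw [NC, q]
  have h5 : (1 + Real.exp a) ^ (m + 1) = (Real.exp a + 1) ^ (m + 1) := by rw [add_comm]
  rw [h5]
  linarith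

theorem q_nonneg (m : ℕ) (a : ℝ) : 0 ≤ q m a := by
  rw [← sum_NC]
  apply Finset.sum_nonneg
  intro c _
  apply Finset.prod_nonneg
  intro i _
  split_ifs
  · exact (Real.exp_pos a).le
  · norm_num

theorem u_dot (v : V n) (h : Fin (n + 1) → ℝ) :
    u v ⬝ᵥ h = h 0 + ∑ j, if v j then h j.succ else 0 := by
  simp only [dotProduct, Fin.sum_univ_succ, u_zero, one_mul, u_succ, pt]
  congr 1
  apply Finset.sum_congr rfl
  intro j _
  split_ifs <;> simp

theorem exp_u_dot (v : V n) (h : Fin (n + 1) → ℝ) :
    Real.exp (u v ⬝ᵥ h) = Real.exp (h 0) * ∏ j, if v j then Real.exp (h j.succ) else 1 := by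
  rw [u_dot, Real.exp_add, Real.exp_sum]
  congr 1
  apply Finset.prod_congr rfl
  intro j _
  split_ifs <;> simp

theorem sum_exp_u_dot (h : Fin (n + 1) → ℝ) :
    ∑ v : V n, Real.exp (u v ⬝ᵥ h) = Real.exp (h 0) * ∏ j : Fin n, (1 + Real.exp (h j.succ)) := by
  simp_rw [exp_u_dot, ← Finset.mul_sum]
  congr 1
  have h1 := sum_bool_prod (fun (j : Fin n) b => if b then Real.exp (h j.succ) else 1)
  simp only [if_true, Bool.false_eq_true, if_false] at h1
  rw [h1]
  apply Finset.prod_congr rfl
  intro j _
  ring

/-- tuples with all columns nonconstant -/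
def NCT (n : ℕ) : Finset (Fin (n + 1) → V n) :=
  Finset.univ.filter (fun s => ∀ j, (fun i => s i j) ∈ NC (n + 1))

theorem mem_NCT_of_det {s : Fin (n + 1) → V n} (hs : (M s).det ≠ 0) : s ∈ NCT n := by
  simp only [NCT, NC, Finset.mem_filter, Finset.mem_univ, true_and]
  intro j
  constructor
  · by_contra hcon
    push Not at hcon
    apply hs
    apply Matrix.det_eq_zero_of_column_eq_zero j.succ
    intro i
    have := hcon i
    simp only [Bool.not_eq_true] at this
    simp [pt, this]
  · by_contra hcon
    push Not at hcon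
    apply hs
    apply Matrix.det_zero_of_column_eq (i := j.succ) (j := 0) (Fin.succ_ne_zero j)
    intro i
    have := hcon i
    simp only [Bool.not_eq_false] at this
    simp [pt, this]

theorem sum_NCT (h : Fin (n + 1) → ℝ) :
    ∑ s ∈ NCT n, Real.exp (∑ i, u (s i) ⬝ᵥ h) =
      Real.exp ((n + 1) * h 0) * ∏ j : Fin n, q n (h j.succ) := by
  have h1 : ∀ s : Fin (n + 1) → V n, Real.exp (∑ i, u (s i) ⬝ᵥ h) =
      Real.exp ((n + 1) * h 0) * ∏ j, ∏ i, (if s i j then Real.exp (h j.succ) else 1) := by
    intro s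
    rw [Real.exp_sum]
    simp_rw [exp_u_dot]
    rw [Finset.prod_mul_distrib, Finset.prod_const, Finset.card_univ, Fintype.card_fin,
      ← Real.exp_nat_mul, Finset.prod_comm]
    push_cast
    rfl
  simp_rw [h1, ← Finset.mul_sum]
  congr 1
  simp_rw [← sum_NC]
  rw [Finset.prod_univ_sum]
  apply Finset.sum_bij (fun s _ => fun j i => s i j)
  · intro s hs
    rw [Fintype.mem_piFinset]
    simpa [NCT] using hs
  · intro s _ t _ hst
    funext i j
    exact congrFun (congrFun hst j) i
  · intro t ht
    rw [Fintype.mem_piFinset] at ht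
    exact ⟨fun i j => t j i, by simpa [NCT] using ht, rfl⟩
  · intro s _
    rfl

end Pool.Agent.MP_dd5568_co
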