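import Mathlib

set_option autoImplicit false

open MeasureTheory Set Filter Topology
open scoped ENNReal

namespace Pool.Agent.MP_dd5568_co

theorem lintegral_fin_prod (n : ℕ) (f : Fin n → ℝ → ℝ≥0∞) (hf : ∀ i, Measurable (f i)) :
    ∫⁻ x : Fin n → ℝ, ∏ i, f i (x i) = ∏ i, ∫⁻ t, f i t := by
  induction n with
  | zero =>
    simp only [Finset.univ_eq_empty, Finset.prod_empty, lintegral_const, one_mul]
    rw [volume_pi, Measure.pi_empty_univ]
  | succ n ih =>
    have hmp := (volume_preserving_piFinSuccAbove (fun _ : Fin (n + 1) => ℝ) 0).symm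
    rw [← hmp.lintegral_comp_emb (MeasurableEquiv.measurableEmbedding _)]
    have h1 : ∀ p : ℝ × (Fin n → ℝ),
        ∏ i, f i ((MeasurableEquiv.piFinSuccAbove (fun _ : Fin (n + 1) => ℝ) 0).symm p i)
          = f 0 p.1 * ∏ i : Fin n, f i.succ (p.2 i) := by
      intro p
      rw [Fin.prod_univ_succ]
      rfl
    simp_rw [h1]
    have hm : Measurable (fun x : Fin n → ℝ => ∏ i : Fin n, f i.succ (x i)) :=
      Finset.measurable_prod _ fun i _ => (hf i.succ).comp (measurable_pi_apply i)
    rw [Measure.volume_eq_prod, lintegral_prod_mul (hf 0).aemeasurable hm.aemeasurable,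
      ih _ (fun i => hf i.succ), Fin.prod_univ_succ]

theorem lintegral_pi_prod {ι : Type*} [Fintype ι] (f : ι → ℝ → ℝ≥0∞)
    (hf : ∀ i, Measurable (f i)) :
    ∫⁻ x : ι → ℝ, ∏ i, f i (x i) = ∏ i, ∫⁻ t, f i t := by
  let e := (Fintype.equivFin ι).symm
  rw [← (volume_measurePreserving_piCongrLeft (fun _ : ι => ℝ) e).lintegral_comp_emb
    (MeasurableEquiv.measurableEmbedding _)]
  simp_rw [← e.prod_comp, MeasurableEquiv.coe_piCongrLeft, Equiv.piCongrLeft_apply_apply]
  exact lintegral_fin_prod _ _ (fun i => hf _)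

/-- the density -/
noncomputable def g (t : ℝ) : ℝ≥0∞ := ENNReal.ofReal (Real.exp t * Real.exp (-Real.exp t))

theorem measurable_g : Measurable g := by
  unfold g; fun_prop

theorem lintegral_g_Ici (a : ℝ) : ∫⁻ t in Ici a, g t = ENNReal.ofReal (Real.exp (-Real.exp a)) := by
  have hderiv : ∀ x ∈ Ici a, HasDerivAt (fun t => -Real.exp (-Real.exp t))
      (Real.exp x * Real.exp (-Real.exp x)) x := by
    intro x _
    have h1 := ((Real.hasDerivAt_exp x).neg).exp.neg
    have h2 : Real.exp x * Real.exp (-Real.exp x) = -(Real.exp (-Real.exp x) * -Real.exp x) := by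
      ring
    rw [h2]
    exact h1
  have hpos : ∀ x ∈ Ioi a, 0 ≤ Real.exp x * Real.exp (-Real.exp x) := fun x _ => by positivity
  have hlim : Tendsto (fun t => -Real.exp (-Real.exp t)) atTop (𝓝 0) := by
    have : Tendsto (fun t : ℝ => Real.exp (-Real.exp t)) atTop (𝓝 0) :=
      Real.tendsto_exp_neg_atTop_nhds_zero.comp Real.tendsto_exp_atTop
    simpa using this.neg
  have hint := integrableOn_Ioi_deriv_of_nonneg' hderiv hpos hlim
  have hval := integral_Ioi_of_hasDerivAt_of_nonneg' hderiv hpos hlim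
  rw [setLIntegral_congr Ioi_ae_eq_Ici.symm]
  unfold g
  rw [← ofReal_integral_eq_lintegral_ofReal hint
    (by filter_upwards with x using by positivity), hval]
  congr 1
  ring

theorem lintegral_gamma (n : ℕ) (Z : ℝ) (hZ : 0 < Z) :
    ∫⁻ x : ℝ, ENNReal.ofReal (Real.exp ((n + 1) * x) * Real.exp (-(Real.exp x * Z)))
      = ENNReal.ofReal (n.factorial / Z ^ (n + 1)) := by
  have h1 := lintegral_image_eq_lintegral_abs_deriv_mul (s := univ) (f := Real.exp)
    (f' := Real.exp) MeasurableSet.univ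
    (fun x _ => (Real.hasDerivAt_exp x).hasDerivWithinAt) Real.exp_injective.injOn
    (fun y => ENNReal.ofReal (y ^ n * Real.exp (-(Z * y))))
  rw [image_univ, Real.range_exp, Measure.restrict_univ] at h1
  have h2 : ∀ x : ℝ, ENNReal.ofReal |Real.exp x| *
      ENNReal.ofReal ((Real.exp x) ^ n * Real.exp (-(Z * Real.exp x)))
      = ENNReal.ofReal (Real.exp ((n + 1) * x) * Real.exp (-(Real.exp x * Z))) := by
    intro x
    rw [← ENNReal.ofReal_mul (abs_nonneg _), abs_of_pos (Real.exp_pos x)]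
    congr 1
    rw [← mul_assoc, ← Real.exp_nat_mul, ← Real.exp_add, mul_comm Z]
    congr 2
    ring
  simp_rw [h2] at h1
  rw [← h1]
  have h3 := Real.integral_rpow_mul_exp_neg_mul_Ioi (a := (n : ℝ) + 1) (r := Z)
    (by positivity) hZ
  have h4 : ∀ t : ℝ, t ^ ((n : ℝ) + 1 - 1) * Real.exp (-(Z * t)) = t ^ n * Real.exp (-(Z * t)) := by
    intro t
    rw [add_sub_cancel_right, Real.rpow_natCast]
  simp_rw [h4] at h3
  have hval : (1 / Z) ^ ((n : ℝ) + 1) * Real.Gamma ((n : ℝ) + 1) = n.factorial / Z ^ (n + 1) := by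
    rw [Real.Gamma_nat_eq_factorial]
    have : ((n : ℝ) + 1) = ((n + 1 : ℕ) : ℝ) := by push_cast; ring
    rw [this, Real.rpow_natCast, one_div, inv_pow]
    field_simp
  rw [hval] at h3
  have hint : IntegrableOn (fun t : ℝ => t ^ n * Real.exp (-(Z * t))) (Ioi 0) := by
    apply Integrable.of_integral_ne_zero
    rw [h3]
    positivity
  rw [← ofReal_integral_eq_lintegral_ofReal hint, h3]
  rw [EventuallyLE, ae_restrict_iff' measurableSet_Ioi]
  filter_upwards with x hx
  have : 0 < x := hx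
  simp only [Pi.zero_apply]
  positivity

theorem lintegral_exp_Iic (c : ℝ) : ∫⁻ a in Iic c, ENNReal.ofReal (Real.exp a)
    = ENNReal.ofReal (Real.exp c) := by
  rw [← ofReal_integral_eq_lintegral_ofReal (integrableOn_exp_Iic c)
    (by filter_upwards with x using by positivity), integral_exp_Iic]

theorem lintegral_exp_neg_Ici (c : ℝ) : ∫⁻ a in Ici c, ENNReal.ofReal (Real.exp (-a))
    = ENNReal.ofReal (Real.exp (-c)) := by
  rw [setLIntegral_congr Ioi_ae_eq_Ici.symm,
    ← ofReal_integral_eq_lintegral_ofReal (integrableOn_exp_neg_Ioi c)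
    (by filter_upwards with x using by positivity), integral_exp_neg_Ioi]

end Pool.Agent.MP_dd5568_co
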