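import Pool.Agent.MP_dd5568_co.Integrals

set_option autoImplicit false

open MeasureTheory Set Filter Topology
open scoped ENNReal

namespace Pool.Agent.MP_dd5568_co

/-- generating function of nonconstant columns -/
noncomputable def q (n : ℕ) (a : ℝ) : ℝ :=
  (1 + Real.exp a) ^ (n + 1) - 1 - (Real.exp a) ^ (n + 1)

theorem q_ratio (n : ℕ) (a : ℝ) : q n a / (1 + Real.exp a) ^ (n + 1) =
    1 - (1 - Real.exp a / (1 + Real.exp a)) ^ (n + 1)
      - (Real.exp a / (1 + Real.exp a)) ^ (n + 1) := by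
  have h : 0 < 1 + Real.exp a := by positivity
  have h1 : 1 - Real.exp a / (1 + Real.exp a) = 1 / (1 + Real.exp a) := by
    field_simp; ring
  rw [h1, q, div_pow, div_pow, one_pow, sub_div, sub_div, div_self (by positivity)]

theorem one_sub_pow_le (n : ℕ) (p : ℝ) (hp1 : p ≤ 1) :
    1 - (1 - p) ^ (n + 1) ≤ (n + 1) * p := by
  have := one_add_mul_le_pow (a := -p) (by linarith) (n + 1)
  push_cast at this
  have h2 : (1 + -p) = 1 - p := by ring
  rw [h2] at this
  linarith

theorem q_ratio_le_one (n : ℕ) (a : ℝ) : q n a / (1 + Real.exp a) ^ (n + 1) ≤ 1 := by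
  have h : 0 < 1 + Real.exp a := by positivity
  rw [div_le_one (by positivity), q]
  have : 0 ≤ (Real.exp a) ^ (n + 1) := by positivity
  linarith

theorem q_ratio_le_exp (n : ℕ) (a : ℝ) :
    q n a / (1 + Real.exp a) ^ (n + 1) ≤ (n + 1) * Real.exp a := by
  have h : 0 < 1 + Real.exp a := by positivity
  have he := Real.exp_pos a
  have hp0 : 0 ≤ Real.exp a / (1 + Real.exp a) := by positivity
  have hp1 : Real.exp a / (1 + Real.exp a) ≤ 1 := by
    rw [div_le_one h]; linarith
  have hpe : Real.exp a / (1 + Real.exp a) ≤ Real.exp a := by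
    rw [div_le_iff₀ h]; nlinarith
  rw [q_ratio]
  have h1 := one_sub_pow_le n _ hp1
  have h2 : 0 ≤ (Real.exp a / (1 + Real.exp a)) ^ (n + 1) := by positivity
  have h3 : ((n : ℝ) + 1) * (Real.exp a / (1 + Real.exp a)) ≤ (n + 1) * Real.exp a := by
    gcongr
  linarith

theorem q_ratio_le_exp_neg (n : ℕ) (a : ℝ) :
    q n a / (1 + Real.exp a) ^ (n + 1) ≤ (n + 1) * Real.exp (-a) := by
  have h : 0 < 1 + Real.exp a := by positivity
  have he := Real.exp_pos a
  set p := Real.exp a / (1 + Real.exp a) with hp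
  have hp0 : 0 ≤ p := by positivity
  have hp1 : p ≤ 1 := by
    rw [hp, div_le_one h]; linarith
  have hpe : 1 - p ≤ Real.exp (-a) := by
    have : 1 - p = 1 / (1 + Real.exp a) := by rw [hp]; field_simp; ring
    rw [this, Real.exp_neg, ← one_div]
    apply one_div_le_one_div_of_le he
    linarith
  rw [q_ratio]
  have h1 := one_sub_pow_le n (1 - p) (by linarith)
  rw [sub_sub_cancel] at h1
  have h2 : 0 ≤ (1 - p) ^ (n + 1) := pow_nonneg (by linarith) _
  have h3 : ((n : ℝ) + 1) * (1 - p) ≤ (n + 1) * Real.exp (-a) := by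
    gcongr
  rw [← hp]
  linarith

theorem measurable_q_ratio (n : ℕ) :
    Measurable (fun a => ENNReal.ofReal (q n a / (1 + Real.exp a) ^ (n + 1))) := by
  unfold q; fun_prop

theorem lintegral_q_le (n : ℕ) :
    ∫⁻ a, ENNReal.ofReal (q n a / (1 + Real.exp a) ^ (n + 1))
      ≤ ENNReal.ofReal (2 * Real.log (n + 1) + 2) := by
  set L := Real.log (n + 1) with hL
  have hn : (1 : ℝ) ≤ n + 1 := by
    have : (0 : ℝ) ≤ n := Nat.cast_nonneg n
    linarith
  have hL0 : 0 ≤ L := Real.log_nonneg hn
  have hexp : Real.exp (-L) = 1 / (n + 1) := by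
    rw [Real.exp_neg, hL, Real.exp_log (by linarith), one_div]
  have hcover : (univ : Set ℝ) ⊆ (Iic (-L) ∪ Icc (-L) L) ∪ Ici L := by
    intro x _
    rcases le_total x (-L) with h | h
    · exact Or.inl (Or.inl h)
    · rcases le_total x L with h' | h'
      · exact Or.inl (Or.inr ⟨h, h'⟩)
      · exact Or.inr h'
  set F : ℝ → ℝ≥0∞ := fun a => ENNReal.ofReal (q n a / (1 + Real.exp a) ^ (n + 1)) with hF
  have h1 : ∫⁻ a in Iic (-L), F a ≤ 1 := by
    calc ∫⁻ a in Iic (-L), F a ≤ ∫⁻ a in Iic (-L), ENNReal.ofReal (n + 1) * ENNReal.ofReal (Real.exp a) := by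
          apply lintegral_mono
          intro a
          dsimp only
          rw [← ENNReal.ofReal_mul (by linarith)]
          exact ENNReal.ofReal_le_ofReal (q_ratio_le_exp n a)
      _ = ENNReal.ofReal (n + 1) * ENNReal.ofReal (Real.exp (-L)) := by
          rw [lintegral_const_mul _ (by fun_prop), lintegral_exp_Iic]
      _ = 1 := by
          rw [← ENNReal.ofReal_mul (by linarith), hexp, mul_one_div_cancel (by linarith),
            ENNReal.ofReal_one]
  have h2 : ∫⁻ a in Icc (-L) L, F a ≤ ENNReal.ofReal (2 * L) := by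
    calc ∫⁻ a in Icc (-L) L, F a ≤ ∫⁻ a in Icc (-L) L, 1 := by
          apply lintegral_mono
          intro a
          rw [← ENNReal.ofReal_one]
          exact ENNReal.ofReal_le_ofReal (q_ratio_le_one n a)
      _ = ENNReal.ofReal (2 * L) := by
          rw [setLIntegral_one, Real.volume_Icc]
          congr 1; ring
  have h3 : ∫⁻ a in Ici L, F a ≤ 1 := by
    calc ∫⁻ a in Ici L, F a ≤ ∫⁻ a in Ici L, ENNReal.ofReal (n + 1) * ENNReal.ofReal (Real.exp (-a)) := by
          apply lintegral_mono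
          intro a
          dsimp only
          rw [← ENNReal.ofReal_mul (by linarith)]
          exact ENNReal.ofReal_le_ofReal (q_ratio_le_exp_neg n a)
      _ = ENNReal.ofReal (n + 1) * ENNReal.ofReal (Real.exp (-L)) := by
          rw [lintegral_const_mul _ (by fun_prop), lintegral_exp_neg_Ici]
      _ = 1 := by
          rw [← ENNReal.ofReal_mul (by linarith), hexp, mul_one_div_cancel (by linarith),
            ENNReal.ofReal_one]
  calc ∫⁻ a, F a = ∫⁻ a in univ, F a := by rw [Measure.restrict_univ]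
    _ ≤ ∫⁻ a in (Iic (-L) ∪ Icc (-L) L) ∪ Ici L, F a := lintegral_mono_set hcover
    _ ≤ (∫⁻ a in (Iic (-L) ∪ Icc (-L) L), F a) + (∫⁻ a in Ici L, F a) := lintegral_union_le _ _ _
    _ ≤ ((∫⁻ a in Iic (-L), F a) + (∫⁻ a in Icc (-L) L, F a)) + (∫⁻ a in Ici L, F a) := by
        gcongr
        exact lintegral_union_le _ _ _
    _ ≤ (1 + ENNReal.ofReal (2 * L)) + 1 := by gcongr
    _ = ENNReal.ofReal (2 * L + 2) := by
        rw [ENNReal.ofReal_add (by positivity) (by norm_num)]
        have : ENNReal.ofReal 2 = 1 + 1 := by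
          rw [← ENNReal.ofReal_one, ← ENNReal.ofReal_add zero_le_one zero_le_one]
          norm_num
        rw [this]
        ring

theorem lintegral_g : ∫⁻ t, g t = 1 := by
  have h := lintegral_gamma 0 1 one_pos
  simp only [Nat.factorial_zero, Nat.cast_one, one_pow, div_one, ENNReal.ofReal_one, mul_one,
    Nat.cast_zero, zero_add, one_mul] at h
  exact h

end Pool.Agent.MP_dd5568_co
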