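import Pool.Agent.MP_dd5568_co.OneDim
import Pool.Agent.MP_dd5568_co.Cells

set_option autoImplicit false

open MeasureTheory Matrix
open scoped ENNReal

namespace Pool.Agent.MP_dd5568_co

variable {n : ℕ}

/-- labels outside of `s` -/
abbrev Rest (s : Fin (n + 1) → V n) := ((Set.range s)ᶜ : Set (V n))

open Classical in
/-- splitting the labels -/
noncomputable def splitEquiv (s : Fin (n + 1) → V n) (hs : Function.Injective s) :
    Fin (n + 1) ⊕ Rest s ≃ V n :=
  (Equiv.sumCongr (Equiv.ofInjective s hs) (Equiv.refl _)).trans (Equiv.Set.sumCompl (Set.range s))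

@[simp] theorem splitEquiv_inl (s : Fin (n + 1) → V n) (hs : Function.Injective s) (i) :
    splitEquiv s hs (Sum.inl i) = s i := by
  simp [splitEquiv]

@[simp] theorem splitEquiv_inr (s : Fin (n + 1) → V n) (hs : Function.Injective s) (r) :
    splitEquiv s hs (Sum.inr r) = r := by
  simp [splitEquiv]

open Classical in
noncomputable instance (s : Fin (n + 1) → V n) : Fintype (Rest s) := inferInstance

theorem split_lintegral (s : Fin (n + 1) → V n) (hs : Function.Injective s) :
    ∃ Φ : ((Fin (n + 1) → ℝ) × (Rest s → ℝ)) → (V n → ℝ), Measurable Φ ∧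
      (∀ p i, Φ p (s i) = p.1 i) ∧ (∀ p (r : Rest s), Φ p r = p.2 r) ∧
      ∀ F : (V n → ℝ) → ℝ≥0∞, ∫⁻ ω, F ω = ∫⁻ p, F (Φ p) := by
  let e := splitEquiv s hs
  have m1 := volume_measurePreserving_piCongrLeft (fun _ : V n => ℝ) e
  have m2 := volume_measurePreserving_sumPiEquivProdPi_symm (fun _ : Fin (n + 1) ⊕ Rest s => ℝ)
  refine ⟨fun p => MeasurableEquiv.piCongrLeft (fun _ : V n => ℝ) e
    ((MeasurableEquiv.sumPiEquivProdPi (fun _ : Fin (n + 1) ⊕ Rest s => ℝ)).symm p), ?_, ?_, ?_, ?_⟩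
  · exact (m1.comp m2).measurable
  · intro p i
    have : s i = e (Sum.inl i) := by simp [e]
    dsimp only
    rw [this, MeasurableEquiv.coe_piCongrLeft, Equiv.piCongrLeft_apply_apply]
    rfl
  · intro p r
    have : (r : V n) = e (Sum.inr r) := by simp [e]
    dsimp only
    rw [this, MeasurableEquiv.coe_piCongrLeft, Equiv.piCongrLeft_apply_apply]
    rfl
  · intro F
    rw [← m1.lintegral_comp_emb (MeasurableEquiv.measurableEmbedding _),
      ← m2.lintegral_comp_emb (MeasurableEquiv.measurableEmbedding _)]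

theorem prod_split {α : Type*} [CommMonoid α] (s : Fin (n + 1) → V n) (hs : Function.Injective s)
    (f : V n → α) : ∏ v, f v = (∏ i, f (s i)) * ∏ r : Rest s, f r := by
  rw [← (splitEquiv s hs).prod_comp, Fintype.prod_sum_type]
  simp

theorem sum_split (s : Fin (n + 1) → V n) (hs : Function.Injective s)
    (f : V n → ℝ) : ∑ v, f v = (∑ i, f (s i)) + ∑ r : Rest s, f r := by
  rw [← (splitEquiv s hs).sum_comp, Fintype.sum_sum_type]
  simp

theorem change_var (s : Fin (n + 1) → V n) (hs : (M s).det ≠ 0)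
    (G : (Fin (n + 1) → ℝ) → ℝ≥0∞) (hG : Measurable G) :
    ∫⁻ x, G x = ENNReal.ofReal |(M s).det| * ∫⁻ h, G (M s *ᵥ h) := by
  have h1 := Real.map_matrix_volume_pi_eq_smul_volume_pi hs
  have h2 : ∫⁻ h, G (M s *ᵥ h) = ∫⁻ x, G x ∂(Measure.map (Matrix.toLin' (M s)) volume) := by
    rw [lintegral_map hG (LinearMap.continuous_of_finiteDimensional _).measurable]
    rfl
  rw [h2, h1, lintegral_smul_measure, smul_eq_mul, ← mul_assoc, ← ENNReal.ofReal_mul (abs_nonneg _),
    ← abs_mul, mul_inv_cancel₀ hs, abs_one, ENNReal.ofReal_one, one_mul]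

end Pool.Agent.MP_dd5568_co
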