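import Pool.Agent.MP_dd5568_co.Columns
import Pool.Agent.MP_dd5568_co.CellIntegral

set_option autoImplicit false

open MeasureTheory Matrix
open scoped ENNReal

namespace Pool.Agent.MP_dd5568_co

variable {n : ℕ}

/-- normalized probability of a cell -/
noncomputable def J (s : Fin (n + 1) → V n) : ℝ≥0∞ :=
  ∫⁻ h : Fin (n + 1) → ℝ,
    ENNReal.ofReal (Real.exp (∑ i, u (s i) ⬝ᵥ h) * Real.exp (-∑ v : V n, Real.exp (u v ⬝ᵥ h)))

theorem measurable_dotu (v : V n) : Measurable (fun h : Fin (n + 1) → ℝ => u v ⬝ᵥ h) :=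
  (Continuous.dotProduct continuous_const continuous_id).measurable

theorem sum_J_le (n : ℕ) :
    ∑ s ∈ NCT n, J s ≤ ENNReal.ofReal (n.factorial) * (ENNReal.ofReal (2 * Real.log (n + 1) + 2)) ^ n := by
  unfold J
  rw [← lintegral_finsetSum]
  swap
  · intro s _
    apply ENNReal.measurable_ofReal.comp
    apply Measurable.mul
    · apply Real.measurable_exp.comp
      exact Finset.measurable_sum _ fun i _ => measurable_dotu _
    · apply Real.measurable_exp.comp
      apply Measurable.neg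
      exact Finset.measurable_sum _ fun v _ => Real.measurable_exp.comp (measurable_dotu _)
  have h1 : ∀ h : Fin (n + 1) → ℝ, ∑ s ∈ NCT n, ENNReal.ofReal (Real.exp (∑ i, u (s i) ⬝ᵥ h) *
      Real.exp (-∑ v : V n, Real.exp (u v ⬝ᵥ h))) =
      ENNReal.ofReal ((∏ j : Fin n, q n (h j.succ)) * (Real.exp ((n + 1) * h 0) *
        Real.exp (-(Real.exp (h 0) * ∏ j : Fin n, (1 + Real.exp (h j.succ)))))) := by
    intro h
    rw [← ENNReal.ofReal_sum_of_nonneg (fun s _ => by positivity), ← Finset.sum_mul, sum_NCT,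
      sum_exp_u_dot]
    congr 1
    ring
  simp_rw [h1]
  have hmp := (volume_preserving_piFinSuccAbove (fun _ : Fin (n + 1) => ℝ) 0).symm
  rw [← hmp.lintegral_comp_emb (MeasurableEquiv.measurableEmbedding _)]
  have h2 : ∀ p : ℝ × (Fin n → ℝ),
      ENNReal.ofReal ((∏ j : Fin n, q n ((MeasurableEquiv.piFinSuccAbove (fun _ : Fin (n + 1) => ℝ) 0).symm p j.succ)) *
        (Real.exp ((n + 1) * (MeasurableEquiv.piFinSuccAbove (fun _ : Fin (n + 1) => ℝ) 0).symm p 0) *
        Real.exp (-(Real.exp ((MeasurableEquiv.piFinSuccAbove (fun _ : Fin (n + 1) => ℝ) 0).symm p 0) *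
          ∏ j : Fin n, (1 + Real.exp ((MeasurableEquiv.piFinSuccAbove (fun _ : Fin (n + 1) => ℝ) 0).symm p j.succ))))))
      = ENNReal.ofReal ((∏ j : Fin n, q n (p.2 j)) * (Real.exp ((n + 1) * p.1) *
        Real.exp (-(Real.exp p.1 * ∏ j : Fin n, (1 + Real.exp (p.2 j)))))) := fun p => rfl
  simp_rw [h2]
  have hmeas : Measurable (fun p : ℝ × (Fin n → ℝ) => ENNReal.ofReal ((∏ j : Fin n, q n (p.2 j)) *
      (Real.exp ((n + 1) * p.1) *
        Real.exp (-(Real.exp p.1 * ∏ j : Fin n, (1 + Real.exp (p.2 j))))))) := by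
    unfold q
    fun_prop
  rw [Measure.volume_eq_prod, lintegral_prod_symm _ hmeas.aemeasurable]
  dsimp only
  have h3 : ∀ a : Fin n → ℝ, ∫⁻ x : ℝ, ENNReal.ofReal ((∏ j : Fin n, q n (a j)) *
      (Real.exp ((n + 1) * x) * Real.exp (-(Real.exp x * ∏ j : Fin n, (1 + Real.exp (a j)))))) =
      ENNReal.ofReal (n.factorial) *
        ∏ j : Fin n, ENNReal.ofReal (q n (a j) / (1 + Real.exp (a j)) ^ (n + 1)) := by
    intro a
    have hq : 0 ≤ ∏ j : Fin n, q n (a j) := Finset.prod_nonneg fun j _ => q_nonneg _ _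
    have hZ : 0 < ∏ j : Fin n, (1 + Real.exp (a j)) := Finset.prod_pos fun j _ => by positivity
    simp_rw [ENNReal.ofReal_mul hq]
    rw [lintegral_const_mul _ (by fun_prop), lintegral_gamma n _ hZ,
      ← ENNReal.ofReal_prod_of_nonneg (fun j _ => div_nonneg (q_nonneg _ _) (by positivity)),
      ← ENNReal.ofReal_mul hq, ← ENNReal.ofReal_mul (by positivity)]
    congr 1
    rw [Finset.prod_div_distrib, Finset.prod_pow]
    ring
  simp_rw [h3]
  have hm3 : Measurable (fun y : Fin n → ℝ =>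
      ∏ j : Fin n, ENNReal.ofReal (q n (y j) / (1 + Real.exp (y j)) ^ (n + 1))) := by
    apply Finset.measurable_prod
    intro j _
    exact (measurable_q_ratio n).comp (measurable_pi_apply j)
  rw [lintegral_const_mul _ hm3,
    lintegral_pi_prod (fun _ : Fin n => fun a => ENNReal.ofReal (q n a / (1 + Real.exp a) ^ (n + 1)))
      (fun _ => measurable_q_ratio n)]
  gcongr
  rw [Finset.prod_const, Finset.card_univ, Fintype.card_fin]
  gcongr
  exact lintegral_q_le n

end Pool.Agent.MP_dd5568_co
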