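import Pool.Agent.MP_dd5568_co.Cells

/-!
The regular triangulation with generic heights is a face to face triangulation of the cube.
-/

set_option autoImplicit false

open Matrix MeasureTheory

namespace Pool.Agent.MP_dd5568_co

variable {n : ℕ}

open Classical in
/-- ordered cells -/
noncomputable def cells (ω : V n → ℝ) : Finset (Fin (n + 1) → V n) :=
  Finset.univ.filter (IsCell ω)

open Classical in
/-- the vertex set of an ordered cell -/
noncomputable def vset (s : Fin (n + 1) → V n) : Finset (Fin n → ℝ) :=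
  Finset.univ.image (pt ∘ s)

open Classical in
/-- the regular triangulation -/
noncomputable def T (ω : V n → ℝ) : Finset (Finset (Fin n → ℝ)) :=
  (cells ω).image vset

theorem mem_cells {ω : V n → ℝ} {s : Fin (n + 1) → V n} : s ∈ cells ω ↔ IsCell ω s := by
  simp [cells]

theorem coe_vset (s : Fin (n + 1) → V n) : (vset s : Set (Fin n → ℝ)) = Set.range (pt ∘ s) := by
  simp only [vset, Finset.coe_image, Finset.coe_univ, Set.image_univ]

theorem T_cond {ω : V n → ℝ} (S : Finset (Fin n → ℝ)) (hS : S ∈ T ω) :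
    S.card = n + 1 ∧ AffineIndependent ℝ (fun x : S => (x : Fin n → ℝ)) ∧
      ∀ v ∈ S, ∀ i : Fin n, v i = 0 ∨ v i = 1 := by
  classical
  simp only [T, Finset.mem_image] at hS
  obtain ⟨s, hs, rfl⟩ := hS
  rw [mem_cells] at hs
  have hind := affineIndependent_iff_det.2 hs.1
  refine ⟨?_, ?_, ?_⟩
  · rw [vset, Finset.card_image_of_injective _ hind.injective]; simp
  · have := hind.range
    rw [← coe_vset] at this
    exact this
  · intro v hv i
    simp only [vset, Finset.mem_image, Finset.mem_univ, true_and, Function.comp] at hv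
    obtain ⟨j, rfl⟩ := hv
    simp only [pt]
    split_ifs <;> simp

/-- affine functional -/
theorem lift_dot (x : Fin n → ℝ) (h : Fin (n + 1) → ℝ) :
    lift x ⬝ᵥ h = h 0 + ∑ j, x j * h j.succ := by
  simp [dotProduct, Fin.sum_univ_succ]

theorem lift_dot_sum {S : Finset (Fin n → ℝ)} {w : (Fin n → ℝ) → ℝ} (hw : ∑ y ∈ S, w y = 1)
    (h : Fin (n + 1) → ℝ) :
    lift (∑ y ∈ S, w y • y) ⬝ᵥ h = ∑ y ∈ S, w y * (lift y ⬝ᵥ h) := by
  simp only [lift_dot, mul_add, Finset.sum_add_distrib, ← Finset.sum_mul, hw, one_mul,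
    Finset.sum_apply, Pi.smul_apply, smul_eq_mul]
  congr 1
  simp only [Finset.sum_mul, Finset.mul_sum]
  rw [Finset.sum_comm]
  apply Finset.sum_congr rfl; intro y _
  apply Finset.sum_congr rfl; intro j _
  ring

theorem inter_aux {S S' : Finset (Fin n → ℝ)} [DecidableEq (Fin n → ℝ)]
    {h h' : Fin (n + 1) → ℝ}
    (h1 : ∀ y ∈ S, lift y ⬝ᵥ h' ≤ lift y ⬝ᵥ h)
    (h1' : ∀ y ∈ S, y ∉ S' → lift y ⬝ᵥ h' < lift y ⬝ᵥ h)
    (h2 : ∀ y ∈ S', lift y ⬝ᵥ h ≤ lift y ⬝ᵥ h') :
    convexHull ℝ (S : Set (Fin n → ℝ)) ∩ convexHull ℝ (S' : Set (Fin n → ℝ)) ⊆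
      convexHull ℝ ((S ∩ S' : Finset _) : Set (Fin n → ℝ)) := by
  rintro x ⟨hx, hx'⟩
  rw [Finset.mem_convexHull'] at hx hx' ⊢
  obtain ⟨w, hw0, hw1, hwx⟩ := hx
  obtain ⟨w', hw0', hw1', hwx'⟩ := hx'
  have e1 : lift x ⬝ᵥ h = ∑ y ∈ S, w y * (lift y ⬝ᵥ h) := by
    rw [← hwx]; exact lift_dot_sum hw1 h
  have e2 : lift x ⬝ᵥ h' = ∑ y ∈ S, w y * (lift y ⬝ᵥ h') := by
    rw [← hwx]; exact lift_dot_sum hw1 h'
  have e3 : lift x ⬝ᵥ h = ∑ y ∈ S', w' y * (lift y ⬝ᵥ h) := by
    rw [← hwx']; exact lift_dot_sum hw1' h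
  have e4 : lift x ⬝ᵥ h' = ∑ y ∈ S', w' y * (lift y ⬝ᵥ h') := by
    rw [← hwx']; exact lift_dot_sum hw1' h'
  have le1 : lift x ⬝ᵥ h ≤ lift x ⬝ᵥ h' := by
    rw [e3, e4]
    exact Finset.sum_le_sum fun y hy => mul_le_mul_of_nonneg_left (h2 y hy) (hw0' y hy)
  have le2 : ∀ y ∈ S, w y * (lift y ⬝ᵥ h') ≤ w y * (lift y ⬝ᵥ h) := fun y hy =>
    mul_le_mul_of_nonneg_left (h1 y hy) (hw0 y hy)
  have eq1 : ∀ y ∈ S, w y * (lift y ⬝ᵥ h') = w y * (lift y ⬝ᵥ h) := by
    apply (Finset.sum_eq_sum_iff_of_le le2).1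
    rw [← e1, ← e2]
    apply le_antisymm
    · rw [e1, e2]; exact Finset.sum_le_sum le2
    · exact le1
  have hz : ∀ y ∈ S, y ∉ S' → w y = 0 := by
    intro y hy hy'
    by_contra hne
    have := mul_left_cancel₀ hne (eq1 y hy)
    have := h1' y hy hy'
    linarith
  refine ⟨w, fun y hy => hw0 y (Finset.mem_inter.1 hy).1, ?_, ?_⟩
  · rw [← hw1]
    apply Finset.sum_subset Finset.inter_subset_left
    intro y hy hy'
    exact hz y hy (fun h => hy' (Finset.mem_inter.2 ⟨hy, h⟩))
  · rw [← hwx]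
    apply Finset.sum_subset Finset.inter_subset_left
    intro y hy hy'
    rw [hz y hy (fun h => hy' (Finset.mem_inter.2 ⟨hy, h⟩)), zero_smul]

theorem T_inter {ω : V n → ℝ} (S : Finset (Fin n → ℝ)) (hS : S ∈ T ω)
    (S' : Finset (Fin n → ℝ)) (hS' : S' ∈ T ω) [DecidableEq (Fin n → ℝ)] :
    convexHull ℝ (S : Set (Fin n → ℝ)) ∩ convexHull ℝ (S' : Set (Fin n → ℝ)) =
      convexHull ℝ ((S ∩ S' : Finset _) : Set (Fin n → ℝ)) := by
  apply Set.Subset.antisymm
  · simp only [T, Finset.mem_image] at hS hS'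
    obtain ⟨s, hs, rfl⟩ := hS
    obtain ⟨s', hs', rfl⟩ := hS'
    rw [mem_cells] at hs hs'
    obtain ⟨hd, h, hh1, hh2⟩ := hs
    obtain ⟨hd', h', hh1', hh2'⟩ := hs'
    have mem : ∀ (t : Fin (n + 1) → V n) (v : V n), pt v ∈ vset t ↔ v ∈ Set.range t := by
      intro t v
      rw [← Finset.mem_coe, coe_vset, Set.range_comp]
      exact pt_injective.mem_set_image
    have form : ∀ (t : Fin (n + 1) → V n) (y : Fin n → ℝ), y ∈ vset t → ∃ i, y = pt (t i) := by
      intro t y hy
      rw [← Finset.mem_coe, coe_vset] at hy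
      obtain ⟨i, rfl⟩ := hy
      exact ⟨i, rfl⟩
    apply inter_aux (h := h) (h' := h')
    · intro y hy
      obtain ⟨i, rfl⟩ := form s y hy
      change u (s i) ⬝ᵥ h' ≤ u (s i) ⬝ᵥ h
      rw [hh1]
      by_cases hm : s i ∈ Set.range s'
      · obtain ⟨j, hj⟩ := hm
        rw [← hj, hh1']
      · exact (hh2' _ hm).le
    · intro y hy hy'
      obtain ⟨i, rfl⟩ := form s y hy
      rw [mem] at hy'
      change u (s i) ⬝ᵥ h' < u (s i) ⬝ᵥ h
      rw [hh1]
      exact hh2' _ hy'
    · intro y hy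
      obtain ⟨i, rfl⟩ := form s' y hy
      change u (s' i) ⬝ᵥ h ≤ u (s' i) ⬝ᵥ h'
      rw [hh1']
      by_cases hm : s' i ∈ Set.range s
      · obtain ⟨j, hj⟩ := hm
        rw [← hj, hh1]
      · exact (hh2 _ hm).le
  · apply Set.subset_inter
    · exact convexHull_mono (by simp)
    · exact convexHull_mono (by simp)

theorem convexHull_range_pt :
    convexHull ℝ (Set.range (pt : V n → Fin n → ℝ)) = Set.Icc 0 1 := by
  have h1 : Set.range (pt : V n → Fin n → ℝ) = Set.univ.pi (fun _ => ({0, 1} : Set ℝ)) := by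
    ext x
    simp only [Set.mem_range, Set.mem_pi, Set.mem_univ, true_imp_iff, Set.mem_insert_iff,
      Set.mem_singleton_iff]
    constructor
    · rintro ⟨v, rfl⟩ i
      simp only [pt]
      split_ifs <;> simp
    · intro h
      refine ⟨fun i => decide (x i = 1), ?_⟩
      funext i
      rcases h i with h | h <;> simp [pt, h]
  rw [h1, convexHull_pi]
  have h2 : ∀ i : Fin n, convexHull ℝ ({0, 1} : Set ℝ) = Set.Icc 0 1 := by
    intro i
    rw [convexHull_pair, segment_eq_Icc zero_le_one]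
  rw [← Set.pi_univ_Icc]
  apply Set.pi_congr rfl
  intro i _
  exact h2 i

theorem volume_convexHull_small (A : Finset (V n)) (hA : A.card ≤ n) :
    volume (convexHull ℝ (pt '' (A : Set (V n)))) = 0 := by
  classical
  rcases Nat.eq_zero_or_pos A.card with h0 | hpos
  · rw [Finset.card_eq_zero] at h0
    subst h0
    simp
  · have hne : affineSpan ℝ (pt '' (A : Set (V n))) ≠ ⊤ := by
      intro htop
      have h1 : Module.finrank ℝ (vectorSpan ℝ (pt '' (A : Set (V n)))) ≤ A.card - 1 := by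
        have := finrank_vectorSpan_image_finset_le ℝ (pt : V n → Fin n → ℝ) A
          (n := A.card - 1) (by omega)
        rwa [Finset.coe_image] at this
      rw [← direction_affineSpan, htop, AffineSubspace.direction_top, finrank_top] at h1
      simp at h1
      omega
    exact measure_mono_null (convexHull_subset_affineSpan _)
      (Measure.addHaar_affineSubspace volume _ hne)

theorem T_cover {ω : V n → ℝ} (hω : Generic ω) :
    (⋃ S ∈ T ω, convexHull ℝ (S : Set (Fin n → ℝ))) = Set.Icc (0 : Fin n → ℝ) 1 := by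
  classical
  apply Set.Subset.antisymm
  · apply Set.iUnion₂_subset
    intro S hS
    apply convexHull_min _ (convex_Icc 0 1)
    intro y hy
    have h := (T_cond S hS).2.2 y hy
    constructor
    · intro i; rcases h i with h | h <;> simp [h]
    · intro i; rcases h i with h | h <;> simp [h]
  · set U : Set (Fin n → ℝ) := ⋃ S ∈ T ω, convexHull ℝ (S : Set (Fin n → ℝ)) with hU
    have hclosed : IsClosed U := by
      apply Set.Finite.isClosed_biUnion (Finset.finite_toSet _)
      intro S _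
      exact (Set.Finite.isCompact_convexHull ℝ (Finset.finite_toSet S)).isClosed
    let G : Set (Fin n → ℝ) := {x | ∀ A : Finset (V n), A.card ≤ n →
      x ∉ convexHull ℝ (pt '' (A : Set (V n)))}
    have hG : Dense G := by
      apply Measure.dense_of_ae (μ := (volume : Measure (Fin n → ℝ)))
      rw [ae_all_iff]
      intro A
      by_cases hA : A.card ≤ n
      · have := volume_convexHull_small A hA
        rw [measure_eq_zero_iff_ae_notMem] at this
        filter_upwards [this] with x hx _ using hx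
      · filter_upwards with x hx using absurd hx hA
    let O : Set (Fin n → ℝ) := Set.univ.pi (fun _ => Set.Ioo (0 : ℝ) 1)
    have hO : IsOpen O := isOpen_set_pi Set.finite_univ (fun _ _ => isOpen_Ioo)
    have hOc : closure O = Set.Icc 0 1 := by
      rw [closure_pi_set]
      simp only [closure_Ioo zero_ne_one]
      rw [← Set.pi_univ_Icc]
      rfl
    have hOG : O ∩ G ⊆ U := by
      rintro x ⟨hx, hxG⟩
      have hxc : x ∈ Set.Icc (0 : Fin n → ℝ) 1 := by rw [← hOc]; exact subset_closure hx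
      rw [← convexHull_range_pt] at hxc
      obtain ⟨s, hs, hxs⟩ := exists_cell hω hxc hxG
      rw [hU]
      simp only [Set.mem_iUnion]
      refine ⟨vset s, Finset.mem_image.2 ⟨s, mem_cells.2 hs, rfl⟩, ?_⟩
      rw [coe_vset]; exact hxs
    calc Set.Icc 0 1 = closure O := hOc.symm
      _ ⊆ closure (closure (O ∩ G)) := closure_mono (hG.open_subset_closure_inter hO)
      _ = closure (O ∩ G) := closure_closure
      _ ⊆ U := hclosed.closure_subset_iff.2 hOG

end Pool.Agent.MP_dd5568_co
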